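import Mathlib

namespace Pool.Agent.Results.MP_9d9710_co.PlaneIsFree

/-- `P = {1, …, (p-1)/2}` inside `ZMod p`. -/
def P (p : ℕ) : Set (ZMod p) := {x | 1 ≤ x.val ∧ x.val ≤ (p - 1) / 2}

/-- `S`: some coordinate is `0`, another one lies in `P` and the third one lies in `-P`. -/
def S (p : ℕ) : Set (Fin 3 → ZMod p) :=
  {x | ∃ σ : Equiv.Perm (Fin 3), x (σ 0) = 0 ∧ x (σ 1) ∈ P p ∧ -x (σ 2) ∈ P p}

/-- `A` is `S`-free: no difference of two elements of `A` lies in `S`. -/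
def SFree (p : ℕ) (A : Finset (Fin 3 → ZMod p)) : Prop :=
  ∀ a ∈ A, ∀ b ∈ A, a - b ∉ S p

lemma zero_notMem (p : ℕ) : (0 : ZMod p) ∉ P p := by
  intro h
  have := h.1
  simp at this

lemma not_both {p : ℕ} (hp : 1 < p) (b : ZMod p) (h1 : b ∈ P p) (h2 : -b ∈ P p) : False := by
  haveI : NeZero p := ⟨by omega⟩
  have hb : b ≠ 0 := by
    rintro rfl
    exact zero_notMem p h1
  haveI : NeZero b := ⟨hb⟩
  have h3 := ZMod.val_neg_of_ne_zero b
  have h4 := h1.2
  have h5 := h2.2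
  have h6 := ZMod.val_lt b
  omega

/-- Q1 is false: for every prime `p` (indeed every `p > 1`) the plane `{(x,y,y)}` is an `S`-free
set with exactly `p^2` elements. -/
theorem result :
    (∀ p : ℕ, 1 < p → ∃ A : Finset (Fin 3 → ZMod p), SFree p A ∧ A.card = p ^ 2) ∧
    ¬ ∃ δ : ℝ, 0 < δ ∧ ∃ p₀ : ℕ, p₀.Prime ∧ ∀ p : ℕ, p.Prime → p ≠ 2 → p₀ ≤ p →
      ∀ A : Finset (Fin 3 → ZMod p), SFree p A → (A.card : ℝ) ≤ (p : ℝ) ^ (2 - δ) := by
  have key : ∀ p : ℕ, 1 < p → ∃ A : Finset (Fin 3 → ZMod p), SFree p A ∧ A.card = p ^ 2 := by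
    intro p hp
    haveI : NeZero p := ⟨by omega⟩
    classical
    refine ⟨(Finset.univ : Finset (ZMod p × ZMod p)).image (fun t => ![t.1, t.2, t.2]), ?_, ?_⟩
    · intro a ha b hb
      simp only [Finset.mem_image, Finset.mem_univ, true_and, Prod.exists] at ha hb
      obtain ⟨x, y, rfl⟩ := ha
      obtain ⟨x', y', rfl⟩ := hb
      rintro ⟨σ, h0, h1, h2⟩
      have e1 : ∀ i : Fin 3, i = 1 ∨ i = 2 →
          ((![x, y, y] : Fin 3 → ZMod p) - ![x', y', y']) i = y - y' := by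
        intro i hi
        rcases hi with rfl | rfl <;> simp
      have d01 : σ 0 ≠ σ 1 := fun h => by simpa using σ.injective h
      have d02 : σ 0 ≠ σ 2 := fun h => by simpa using σ.injective h
      have d12 : σ 1 ≠ σ 2 := fun h => by simpa using σ.injective h
      by_cases hz : σ 0 = 0
      · have i1 : σ 1 = 1 ∨ σ 1 = 2 := by omega
        have i2 : σ 2 = 1 ∨ σ 2 = 2 := by omega
        rw [e1 _ i1] at h1
        rw [e1 _ i2] at h2
        exact not_both hp _ h1 h2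
      · have i0 : σ 0 = 1 ∨ σ 0 = 2 := by omega
        rw [e1 _ i0] at h0
        by_cases hz1 : σ 1 = 0
        · have i2 : σ 2 = 1 ∨ σ 2 = 2 := by omega
          rw [e1 _ i2, h0, neg_zero] at h2
          exact zero_notMem p h2
        · have i1 : σ 1 = 1 ∨ σ 1 = 2 := by omega
          rw [e1 _ i1, h0] at h1
          exact zero_notMem p h1
    · rw [Finset.card_image_of_injective]
      · simp [ZMod.card, sq]
      · intro s t h
        have h0 := congrFun h 0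
        have h1 := congrFun h 1
        simp at h0 h1
        exact Prod.ext h0 h1
  refine ⟨key, ?_⟩
  rintro ⟨δ, hδ, p₀, -, h⟩
  obtain ⟨p, hp₀, hp⟩ := Nat.exists_infinite_primes (p₀ + 3)
  obtain ⟨A, hA, hc⟩ := key p hp.one_lt
  have h1 := h p hp (by omega) (by omega) A hA
  rw [hc] at h1
  have hp1 : (1 : ℝ) < p := by exact_mod_cast hp.one_lt
  have h2 : (p : ℝ) ^ (2 - δ) < (p : ℝ) ^ (2 : ℝ) :=
    Real.rpow_lt_rpow_of_exponent_lt hp1 (by linarith)
  rw [show ((p : ℝ) ^ (2 : ℝ)) = (p : ℝ) ^ 2 from Real.rpow_natCast _ 2] at h2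
  push_cast at h1
  linarith

end Pool.Agent.Results.MP_9d9710_co.PlaneIsFree
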